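import Pool.Agent.Lib.MP_c5e17c_al.OA.SDN

/-!
# MP_c5e17c_al, project NE: canonical structures generated by their assignment
-/

set_option autoImplicit false

namespace C5E17

open FirstOrder

variable {L : FirstOrder.Language.{0, 0}}

/-- substitution in an atomic formula -/
def Atom.sub (σ : ℕ → L.Term ℕ) : Atom L → Atom L
  | .eq s t => .eq (s.subst σ) (t.subst σ)
  | .rel R ts => .rel R (fun i => (ts i).subst σ)

theorem Atom.holds_sub (A : Str L) (σ : ℕ → L.Term ℕ) (u : ℕ → A.carrier) (a : Atom L) :
    (a.sub σ).Holds A u ↔ a.Holds A (fun i => (σ i).realize u) := by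
  cases a with
  | eq s t =>
    simp only [Atom.sub, Atom.Holds, FirstOrder.Language.Term.realize_subst]
  | rel R ts =>
    simp only [Atom.sub, Atom.Holds, FirstOrder.Language.Term.realize_subst]

/-- substitution in a quasi-identity -/
theorem holds_mk_sub (A : Str L) (σ : ℕ → L.Term ℕ) {P : List (Atom L)} {a : Atom L}
    (h : (QId.mk P a).Holds A) : (QId.mk (P.map (Atom.sub σ)) (a.sub σ)).Holds A := by
  intro u hu
  show (a.sub σ).Holds A u
  rw [Atom.holds_sub]
  apply h
  intro b hb
  have := hu (b.sub σ) (List.mem_map_of_mem hb)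
  rwa [Atom.holds_sub] at this

namespace CanG

/-- the closure properties used for the canonical structure -/
structure Good (Y : Set (Atom L)) : Prop where
  refl : ∀ t : L.Term ℕ, Atom.eq t t ∈ Y
  symm : ∀ s t : L.Term ℕ, Atom.eq s t ∈ Y → Atom.eq t s ∈ Y
  trans : ∀ r s t : L.Term ℕ, Atom.eq r s ∈ Y → Atom.eq s t ∈ Y → Atom.eq r t ∈ Y
  func : ∀ {n : ℕ} (f : L.Functions n) (ts ts' : Fin n → L.Term ℕ),
    (∀ i, Atom.eq (ts i) (ts' i) ∈ Y) →
      Atom.eq (FirstOrder.Language.Term.func f ts) (FirstOrder.Language.Term.func f ts') ∈ Y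
  rel : ∀ {n : ℕ} (R : L.Relations n) (ts ts' : Fin n → L.Term ℕ),
    (∀ i, Atom.eq (ts i) (ts' i) ∈ Y) → Atom.rel R ts ∈ Y → Atom.rel R ts' ∈ Y

theorem good_of_consClosed {B : Set (Str L)} {Y : Set (Atom L)} (h : ConsClosed B Y) :
    Good Y where
  refl t := h [] _ (by simp) (fun M _ v _ => rfl)
  symm s t hst := h [Atom.eq s t] _ (by simpa using hst) (fun M _ v hv => by
    have h1 : (Atom.eq s t).Holds M v := hv _ (by simp)
    exact Eq.symm h1)
  trans r s t hrs hst := h [Atom.eq r s, Atom.eq s t] _
    (by
      intro b hb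
      simp only [List.mem_cons, List.not_mem_nil, or_false] at hb
      rcases hb with rfl | rfl
      · exact hrs
      · exact hst)
    (fun M _ v hv => by
      have h1 : (Atom.eq r s).Holds M v := hv _ (by simp)
      have h2 : (Atom.eq s t).Holds M v := hv _ (by simp)
      exact Eq.trans h1 h2)
  func {n} f ts ts' hts := h (List.ofFn (fun i => Atom.eq (ts i) (ts' i))) _
    (by
      intro b hb
      rw [List.mem_ofFn] at hb
      obtain ⟨i, rfl⟩ := hb
      exact hts i)
    (fun M _ v hv => by
      have h1 : ∀ i, (ts i).realize v = (ts' i).realize v := by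
        intro i
        exact hv (Atom.eq (ts i) (ts' i)) (List.mem_ofFn.mpr ⟨i, rfl⟩)
      show (FirstOrder.Language.Term.func f ts).realize v
        = (FirstOrder.Language.Term.func f ts').realize v
      rw [FirstOrder.Language.Term.realize_func, FirstOrder.Language.Term.realize_func]
      exact congrArg _ (funext h1))
  rel {n} R ts ts' hts hR := h (Atom.rel R ts :: List.ofFn (fun i => Atom.eq (ts i) (ts' i))) _
    (by
      intro b hb
      rcases List.mem_cons.mp hb with rfl | hb
      · exact hR
      · rw [List.mem_ofFn] at hb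
        obtain ⟨i, rfl⟩ := hb
        exact hts i)
    (fun M _ v hv => by
      have h1 : ∀ i, (ts i).realize v = (ts' i).realize v := by
        intro i
        exact hv (Atom.eq (ts i) (ts' i))
          (List.mem_cons_of_mem _ (List.mem_ofFn.mpr ⟨i, rfl⟩))
      have h2 : (Atom.rel R ts).Holds M v := hv _ (List.mem_cons_self ..)
      show FirstOrder.Language.Structure.RelMap R (fun i => (ts' i).realize v)
      have h3 : (fun i => (ts' i).realize v) = (fun i => (ts i).realize v) :=
        funext (fun i => (h1 i).symm)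
      rw [h3]
      exact h2)

/-- the setoid of `Y` -/
def sto (Y : Set (Atom L)) (g : Good Y) : Setoid (L.Term ℕ) where
  r s t := Atom.eq s t ∈ Y
  iseqv := ⟨g.refl, fun {s t} h => g.symm s t h, fun {r s t} h h' => g.trans r s t h h'⟩

/-- the structure of `Y` -/
@[instance_reducible] noncomputable def strY (Y : Set (Atom L)) (g : Good Y) :
    L.Structure (Quotient (sto Y g)) where
  funMap f xs := Quotient.mk (sto Y g) (FirstOrder.Language.Term.func f (fun i => (xs i).out))
  RelMap R xs := Atom.rel R (fun i => (xs i).out) ∈ Y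

/-- the canonical structure of `Y` -/
noncomputable def can (Y : Set (Atom L)) (g : Good Y) : Str L :=
  @Str.mk L (Quotient (sto Y g)) (strY Y g) ⟨Quotient.mk (sto Y g) (FirstOrder.Language.Term.var 0)⟩

theorem out_rel (Y : Set (Atom L)) (g : Good Y) (t : L.Term ℕ) :
    Atom.eq (Quotient.mk (sto Y g) t).out t ∈ Y :=
  Quotient.mk_out (s := sto Y g) t

theorem out_rel' (Y : Set (Atom L)) (g : Good Y) (x : (can Y g).carrier) (t : L.Term ℕ)
    (h : x = Quotient.mk (sto Y g) t) : Atom.eq (Quotient.out (s := sto Y g) x) t ∈ Y := by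
  subst h
  exact out_rel Y g t

theorem realize_can (Y : Set (Atom L)) (g : Good Y) (σ : ℕ → L.Term ℕ) (t : L.Term ℕ) :
    @FirstOrder.Language.Term.realize L (can Y g).carrier (can Y g).str ℕ
      (fun i => Quotient.mk (sto Y g) (σ i)) t = Quotient.mk (sto Y g) (t.subst σ) := by
  induction t with
  | var i => rfl
  | func f ts ih =>
    rw [FirstOrder.Language.Term.realize_func]
    show Quotient.mk (sto Y g) (FirstOrder.Language.Term.func f _) =
      Quotient.mk (sto Y g) (FirstOrder.Language.Term.func f (fun i => (ts i).subst σ))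
    apply Quotient.sound
    show Atom.eq _ _ ∈ Y
    apply g.func
    intro i
    exact out_rel' Y g _ _ (ih i)

theorem holds_can (Y : Set (Atom L)) (g : Good Y) (σ : ℕ → L.Term ℕ) (a : Atom L) :
    a.Holds (can Y g) (fun i => Quotient.mk (sto Y g) (σ i)) ↔ a.sub σ ∈ Y := by
  cases a with
  | eq s t =>
    show (_ = _) ↔ _
    rw [realize_can, realize_can]
    constructor
    · intro h
      exact Quotient.exact h
    · intro h
      exact Quotient.sound h
  | rel R ts =>
    show (Atom.rel R _ ∈ Y) ↔ (Atom.rel R (fun i => (ts i).subst σ) ∈ Y)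
    constructor
    · intro h
      refine g.rel R _ _ ?_ h
      intro i
      exact out_rel' Y g _ _ (realize_can Y g σ (ts i))
    · intro h
      refine g.rel R _ _ ?_ h
      intro i
      exact g.symm _ _ (out_rel' Y g _ _ (realize_can Y g σ (ts i)))

theorem can_mem {B : Set (Str L)} (hB : IsQV B) (Y : Set (Atom L)) (g : Good Y)
    (h : ConsClosed B Y) : can Y g ∈ B := by
  obtain ⟨Q, hQ⟩ := hB
  rw [hQ]
  intro φ hφ v hv
  obtain ⟨σ, hσ⟩ : ∃ σ : ℕ → L.Term ℕ, v = fun i => Quotient.mk (sto Y g) (σ i) :=
    ⟨fun i => Quotient.out (s := sto Y g) (v i),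
      funext (fun i => (Quotient.out_eq (s := sto Y g) (v i)).symm)⟩
  rw [hσ] at hv ⊢
  rw [holds_can]
  apply h (φ.prem.map (Atom.sub σ)) (φ.concl.sub σ)
  · intro b hb
    obtain ⟨p, hp, rfl⟩ := List.mem_map.mp hb
    exact (holds_can Y g σ p).mp (hv p hp)
  · intro A hA
    rw [hQ] at hA
    exact holds_mk_sub A σ (hA φ hφ)

theorem subst_var (t : L.Term ℕ) : t.subst FirstOrder.Language.Term.var = t := by
  induction t with
  | var i => rfl
  | func f ts ih =>
    show FirstOrder.Language.Term.func f (fun i => (ts i).subst _) = _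
    exact congrArg _ (funext ih)

theorem sub_var (a : Atom L) : a.sub FirstOrder.Language.Term.var = a := by
  cases a with
  | eq s t => simp only [Atom.sub, subst_var]
  | rel R ts => simp only [Atom.sub, subst_var]

end CanG

/-- the canonical structure of a set of atomic formulas closed under the consequences of the
quasivarieties `B` and `C`; it is generated by its assignment -/
theorem exists_canonical_gen {B C : Set (Str L)} (hB : IsQV B)
    (hC : IsQV C) (Y : Set (Atom L)) (hYB : ConsClosed B Y) (hYC : ConsClosed C Y) :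
    ∃ M : Str L, M ∈ B ∧ M ∈ C ∧ ∃ v : ℕ → M.carrier, (∀ a : Atom L, a.Holds M v ↔ a ∈ Y) ∧
      ∀ x : M.carrier, ∃ t : L.Term ℕ, t.realize v = x := by
  have g : CanG.Good Y := CanG.good_of_consClosed hYB
  refine ⟨CanG.can Y g, CanG.can_mem hB Y g hYB, CanG.can_mem hC Y g hYC,
    fun i => Quotient.mk (CanG.sto Y g) (FirstOrder.Language.Term.var i), fun a => ?_, fun x => ?_⟩
  · rw [CanG.holds_can Y g FirstOrder.Language.Term.var a, CanG.sub_var]
  · refine ⟨Quotient.out (s := CanG.sto Y g) x, ?_⟩
    rw [CanG.realize_can Y g FirstOrder.Language.Term.var, CanG.subst_var]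
    exact Quotient.out_eq (s := CanG.sto Y g) x

/-- in a generated structure every assignment is given by terms -/
theorem exists_terms {M : Str L} {v : ℕ → M.carrier}
    (hgen : ∀ x : M.carrier, ∃ t : L.Term ℕ, t.realize v = x) (u : ℕ → M.carrier) :
    ∃ r : ℕ → L.Term ℕ, u = fun i => (r i).realize v := by
  choose t ht using hgen
  exact ⟨fun i => t (u i), funext fun i => (ht (u i)).symm⟩

end C5E17
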