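import Pool.Agent.Lib.MP_c5e17c_al.NE.Nec

/-!
# MP_c5e17c_al, project NE: further necessary conditions for lattices of quasivarieties
-/

set_option autoImplicit false

namespace C5E17

open FirstOrder

variable {L : FirstOrder.Language.{0, 0}}

/-- the first condition (a stronger form of `Nec`): let `a` and `f` be closed and let `m` be
maximal among the `p` with `a ⊓ p ≤ f`; then `b ≤ g (f ⊔ (m ⊓ g (a ⊔ b)))` implies
`b ≤ g (m ⊓ b)` -/
def NecP {α : Type} [Lattice α] (g : α → α) : Prop :=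
  ∀ a f m b : α, g a = a → g f = f → a ⊓ m ≤ f → (∀ p, m ≤ p → a ⊓ p ≤ f → p = m) →
    b ≤ g (f ⊔ (m ⊓ g (a ⊔ b))) → b ≤ g (m ⊓ b)

/-- the second condition: let `a` and `f` be closed and let `m` be maximal among the `p` with
`a ⊓ p ≤ f`; then `(f ⊔ (m ⊓ (x ⊔ a))) ⊓ (x ⊔ d) ≤ (m ⊓ x) ⊔ d` for all `x` and `d` -/
def Lam {α : Type} [Lattice α] (g : α → α) : Prop :=
  ∀ a f m x d : α, g a = a → g f = f → a ⊓ m ≤ f → (∀ p, m ≤ p → a ⊓ p ≤ f → p = m) →
    (f ⊔ (m ⊓ (x ⊔ a))) ⊓ (x ⊔ d) ≤ (m ⊓ x) ⊔ d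

/-- the first condition implies the condition `Nec` -/
theorem nec_of_necP {α : Type} [Lattice α] [BoundedOrder α] {g : α → α} (h : IsEqua g)
    (hg : NecP g) : Nec g := by
  intro a b c m ha hc ham hmax hb
  have hca : c ≤ a := by
    rw [← hc]
    exact inf_le_left
  have hgc : g c = c := by
    have h1 : g c ≤ a := by
      rw [← ha]
      exact h.mono _ _ hca
    rw [inf_eq_right.2 h1] at hc
    exact hc
  refine hg a c m b ha hgc ham.le hmax (hb.trans (h.mono _ _ le_sup_right))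

section SubQ

variable {K : Set (Str L)}

/-- the element `M` of the conditions is defined by quasi-identities whose premises are
identities of `A` and whose conclusions are identities of `F` -/
theorem exists_defining (hK : IsQV K) (A F M : SubQ K) (hA : gam hK A = A)
    (hF : gam hK F = F) (hAM : SDN.I A M ≤ F)
    (hmax : ∀ P : SubQ K, M ≤ P → SDN.I A P ≤ F → P = M) :
    ∃ Q : Set (QId L), (∀ φ ∈ Q, φ.concl ∈ IdA F.1 ∧ ∀ b ∈ φ.prem, b ∈ IdA A.1) ∧
      M.1 = K ∩ Mod Q := by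
  set Q : Set (QId L) := {φ | φ.concl ∈ IdA F.1 ∧ (∀ b ∈ φ.prem, b ∈ IdA A.1) ∧ φ ∈ ThQ M.1}
    with hQ
  let P : SubQ K := ⟨K ∩ Mod Q, SDN.isQV_inter hK ⟨Q, rfl⟩, Set.inter_subset_left⟩
  have hMP : M ≤ P := SDN.le_def.2 fun N hN => ⟨M.2.2 hN, fun φ hφ => hφ.2.2 N hN⟩
  have hAP : SDN.I A P ≤ F := by
    rw [← hF]
    refine SDN.le_def.2 ?_
    rintro N ⟨hNA, hNP⟩
    refine ⟨A.2.2 hNA, ?_⟩
    rw [mem_modI]
    intro t ht v
    have h1 : QId.mk [] t ∈ ThQ (M.1 ∩ ModI (IdA A.1)) := by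
      rintro N' ⟨h1, h2⟩
      have h3 : N' ∈ (gam hK A).1 := ⟨M.2.2 h1, h2⟩
      rw [hA] at h3
      have h4 : N' ∈ F.1 := SDN.le_def.1 hAM ⟨h3, h1⟩
      exact ht N' h4
    obtain ⟨s, hs, hs'⟩ := exists_prem M.2.1 A.1 [] t h1
    rw [List.nil_append] at hs'
    exact hNP.2 (QId.mk s t) ⟨ht, hs, hs'⟩ v fun b hb => mem_idA.1 (hs b hb) N hNA v
  have hPM : P = M := hmax P hMP hAP
  exact ⟨Q, fun φ hφ => ⟨hφ.1, hφ.2.1⟩, (congrArg Subtype.val hPM).symm⟩

/-- the first condition in the lattice of subquasivarieties -/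
theorem necP_subQ (hK : IsQV K) (A F M B : SubQ K) (hA : gam hK A = A)
    (hF : gam hK F = F) (hAM : SDN.I A M ≤ F)
    (hmax : ∀ P : SubQ K, M ≤ P → SDN.I A P ≤ F → P = M)
    (hB : B ≤ gam hK (SDN.J hK F (SDN.I M (gam hK (SDN.J hK A B))))) :
    B ≤ gam hK (SDN.I M B) := by
  obtain ⟨Q, hQ, hMQ⟩ := exists_defining hK A F M hA hF hAM hmax
  -- the free structure of `B`
  obtain ⟨N, hNB, _, v, hv, hgen⟩ := exists_canonical_gen B.2.1 B.2.1 (IdA B.1)
    (consClosed_idA B.1) (consClosed_idA B.1)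
  have hNM : N ∈ M.1 := by
    rw [hMQ]
    refine ⟨B.2.2 hNB, ?_⟩
    rintro ⟨s, t⟩ hst u hu
    obtain ⟨ht, hs⟩ := hQ _ hst
    obtain ⟨r, rfl⟩ := exists_terms hgen u
    have h1 : ∀ b ∈ s.map (Atom.sub r), b ∈ IdA (SDN.J hK A B).1 := by
      intro b hb
      obtain ⟨c, hc, rfl⟩ := List.mem_map.1 hb
      rw [idA_J]
      refine ⟨sub_mem_idA (hs c hc) r, ?_⟩
      rw [← hv, Atom.holds_sub]
      exact hu c hc
    have h2 : t.sub r ∈ IdA (SDN.J hK F (SDN.I M (gam hK (SDN.J hK A B)))).1 := by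
      rw [idA_J]
      refine ⟨sub_mem_idA ht r, ?_⟩
      rw [mem_idA]
      rintro N' ⟨h3, h4⟩ w
      have h5 : (QId.mk s t).Holds N' := by
        rw [hMQ] at h3
        exact h3.2 _ hst
      refine holds_mk_sub N' r h5 w fun b hb => ?_
      exact mem_modI.1 h4.2 b (h1 b hb) w
    have h3 : t.sub r ∈ IdA B.1 := (le_gam_iff hK).1 hB h2
    show t.Holds N _
    rw [← Atom.holds_sub, hv]
    exact h3
  rw [le_gam_iff]
  intro a ha
  exact (hv a).1 (mem_idA.1 ha N ⟨hNM, hNB⟩ v)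

/-- the second condition in the lattice of subquasivarieties -/
theorem lam_subQ (hK : IsQV K) (A F M X D : SubQ K) (hA : gam hK A = A)
    (hF : gam hK F = F) (hAM : SDN.I A M ≤ F)
    (hmax : ∀ P : SubQ K, M ≤ P → SDN.I A P ≤ F → P = M) :
    SDN.I (SDN.J hK F (SDN.I M (SDN.J hK X A))) (SDN.J hK X D) ≤ SDN.J hK (SDN.I M X) D := by
  obtain ⟨Q, hQ, hMQ⟩ := exists_defining hK A F M hA hF hAM hmax
  set U : SubQ K := SDN.I M (SDN.J hK X A) with hU
  refine SDN.le_def.2 ?_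
  rintro N' ⟨hN1, hN2⟩ ⟨al, be⟩ ⟨h1, h2⟩ v hv
  -- the atomic formulas derived by the rules of `Q`
  set W : Set (Atom L) := {b | b ∈ al ∨ (b ∈ IdA F.1 ∧ QId.mk al b ∈ ThQ U.1)} with hW
  have hWN : ∀ b ∈ W, b.Holds N' v := by
    rintro b (hb | ⟨hb, hb'⟩)
    · exact hv b hb
    · exact hN1 (QId.mk al b) ⟨fun N hN w _ => mem_idA.1 hb N hN w, hb'⟩ v hv
  have hWU : ∀ b ∈ W, QId.mk al b ∈ ThQ U.1 := by
    rintro b (hb | ⟨_, hb'⟩)
    · exact fun N _ w hw => hw b hb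
    · exact hb'
  set Z : Set (Atom L) := {b | ∃ T : List (Atom L), (∀ t ∈ T, t ∈ W) ∧ QId.mk T b ∈ ThQ X.1}
    with hZ
  have hsub : ∀ b ∈ W, b ∈ Z := fun b hb =>
    ⟨[b], by simpa using hb, fun N _ w hw => hw b (by simp)⟩
  have hfin : ∀ P : List (Atom L), (∀ b ∈ P, b ∈ Z) → ∃ T : List (Atom L),
      (∀ t ∈ T, t ∈ W) ∧ ∀ b ∈ P, QId.mk T b ∈ ThQ X.1 := by
    intro P
    induction P with
    | nil => exact fun _ => ⟨[], by simp, by simp⟩
    | cons p P ih =>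
      intro hP
      obtain ⟨T1, h3, h4⟩ := ih fun b hb => hP b (List.mem_cons_of_mem _ hb)
      obtain ⟨T2, h5, h6⟩ := hP p List.mem_cons_self
      refine ⟨T2 ++ T1, ?_, ?_⟩
      · intro t ht
        rcases List.mem_append.1 ht with ht | ht
        · exact h5 t ht
        · exact h3 t ht
      · intro b hb
        rcases List.mem_cons.1 hb with rfl | hb
        · exact SDN.weak h6 fun c hc => by simp [hc]
        · exact SDN.weak (h4 b hb) fun c hc => by simp [hc]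
  have hcl : ConsClosed X.1 Z := by
    intro P a hP ha
    obtain ⟨T, h3, h4⟩ := hfin P hP
    exact ⟨T, h3, fun N hN w hw => ha N hN w fun b hb => h4 b hb N hN w hw⟩
  have hZA : ∀ b ∈ Z, b ∈ IdA A.1 → QId.mk al b ∈ ThQ U.1 := by
    rintro b ⟨T, h3, h4⟩ hb N hN w hw
    exact hN.2 (QId.mk T b) ⟨h4, fun N hN w _ => mem_idA.1 hb N hN w⟩ w
      fun t ht => hWU t (h3 t ht) N hN w hw
  obtain ⟨N, hN, _, w, hw, hgen⟩ := exists_canonical_gen X.2.1 X.2.1 Z hcl hcl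
  have hNQ : N ∈ Mod Q := by
    intro φ hφ u hu
    obtain ⟨r, rfl⟩ := exists_terms hgen u
    obtain ⟨hc, hp⟩ := hQ φ hφ
    rw [← Atom.holds_sub, hw]
    apply hsub
    refine Or.inr ⟨sub_mem_idA hc r, ?_⟩
    intro N1 hN1U w1 hw1
    have h3 : φ.Holds N1 := by
      have h4 : N1 ∈ M.1 := hN1U.1
      rw [hMQ] at h4
      exact h4.2 φ hφ
    show (φ.concl.sub r).Holds N1 w1
    rw [Atom.holds_sub]
    refine h3 _ fun b hb => ?_
    rw [← Atom.holds_sub]
    refine hZA (b.sub r) ?_ (sub_mem_idA (hp b hb) r) N1 hN1U w1 hw1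
    rw [← hw, Atom.holds_sub]
    exact hu b hb
  have hbe : be ∈ Z := by
    rw [← hw]
    refine h1 N ⟨?_, hN⟩ w fun a ha => (hw a).2 (hsub a (Or.inl ha))
    rw [hMQ]
    exact ⟨X.2.2 hN, hNQ⟩
  obtain ⟨T, h3, h4⟩ := hbe
  have h5 : QId.mk (al ++ T) be ∈ ThQ X.1 := SDN.weak h4 fun c hc => by simp [hc]
  have h6 : QId.mk (al ++ T) be ∈ ThQ D.1 := SDN.weak h2 fun c hc => by simp [hc]
  refine hN2 _ ⟨h5, h6⟩ v fun c hc => ?_
  rcases List.mem_append.1 hc with hc | hc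
  · exact hv c hc
  · exact hWN c (h3 c hc)

end SubQ

/-- every lattice of quasivarieties has an equaclosure operator with both conditions -/
theorem exists_nec_lam {α : Type} [Lattice α] [BoundedOrder α] (h : IsLQ α) :
    ∃ g : α → α, IsEqua g ∧ NecP g ∧ Lam g := by
  obtain ⟨L, K, hK, ⟨e⟩⟩ := h
  have hsup : ∀ a b : α, e (a ⊔ b) = SDN.J hK (e a) (e b) := by
    intro a b
    obtain ⟨h1, h2, h3⟩ := SDN.J_isLUB hK (e a) (e b)
    apply le_antisymm
    · obtain ⟨c, hc⟩ := e.surjective (SDN.J hK (e a) (e b))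
      rw [← hc] at h1 h2 ⊢
      rw [e.le_iff_le] at h1 h2 ⊢
      exact sup_le h1 h2
    · exact h3 _ (e.le_iff_le.2 le_sup_left) (e.le_iff_le.2 le_sup_right)
  have hinf : ∀ a b : α, e (a ⊓ b) = SDN.I (e a) (e b) := by
    intro a b
    apply le_antisymm
    · exact SDN.le_def.2 (Set.subset_inter (e.le_iff_le.2 inf_le_left)
        (e.le_iff_le.2 inf_le_right))
    · have h1 : SDN.I (e a) (e b) ≤ e a := SDN.le_def.2 Set.inter_subset_left
      have h2 : SDN.I (e a) (e b) ≤ e b := SDN.le_def.2 Set.inter_subset_right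
      obtain ⟨c, hc⟩ := e.surjective (SDN.I (e a) (e b))
      rw [← hc] at h1 h2 ⊢
      rw [e.le_iff_le] at h1 h2 ⊢
      exact le_inf h1 h2
  set g : α → α := fun x => e.symm (gam hK (e x)) with hg
  have hge : ∀ x, e (g x) = gam hK (e x) := fun x => e.apply_symm_apply _
  have hmaxi : ∀ a f m : α, (∀ p, m ≤ p → a ⊓ p ≤ f → p = m) →
      ∀ P : SubQ K, e m ≤ P → SDN.I (e a) P ≤ e f → P = e m := by
    intro a f m hmax P h1 h2
    obtain ⟨p, rfl⟩ := e.surjective P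
    rw [← hinf] at h2
    rw [e.le_iff_le] at h1 h2
    rw [hmax p h1 h2]
  refine ⟨g, ⟨?_, ?_, ?_, ?_, ?_, ?_⟩, ?_, ?_⟩
  · intro x
    rw [← e.le_iff_le, hge]
    exact gam_le hK _
  · intro x y hxy
    rw [← e.le_iff_le, hge, hge]
    exact gam_mono hK (e.le_iff_le.2 hxy)
  · intro x
    apply e.injective
    rw [hge, hge, gam_idem]
  · apply e.injective
    rw [hge]
    refine gam_least hK fun D => ?_
    obtain ⟨d, rfl⟩ := e.surjective D
    exact e.le_iff_le.2 bot_le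
  · intro x y hxy
    apply e.injective
    rw [hge, hge, hinf]
    refine gam_inf hK ?_
    rw [← hge, ← hge, hxy]
  · intro x y z
    apply le_antisymm
    · rw [← e.le_iff_le, hsup, hinf, hinf, hinf, hsup, hge]
      exact gam_distr hK _ _ _
    · exact sup_le (inf_le_inf_left _ le_sup_left) (inf_le_inf_left _ le_sup_right)
  · intro a f m b ha hf ham hmax hb
    rw [← e.le_iff_le, hge, hinf]
    refine necP_subQ hK (e a) (e f) (e m) (e b) ?_ ?_ ?_ (hmaxi a f m hmax) ?_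
    · rw [← hge, ha]
    · rw [← hge, hf]
    · rw [← hinf, e.le_iff_le]
      exact ham
    · rw [← hsup, ← hge, ← hinf, ← hsup, ← hge, e.le_iff_le]
      exact hb
  · intro a f m x d ha hf ham hmax
    rw [← e.le_iff_le, hsup, hinf, hinf, hsup, hinf, hsup, hsup]
    refine lam_subQ hK (e a) (e f) (e m) (e x) (e d) ?_ ?_ ?_ (hmaxi a f m hmax)
    · rw [← hge, ha]
    · rw [← hge, hf]
    · rw [← hinf, e.le_iff_le]
      exact ham

end C5E17
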