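import Pool.Agent.Lib.MP_c5e17c_al.NE.Gen

/-!
# MP_c5e17c_al, project NE: a necessary condition for lattices of quasivarieties
-/

set_option autoImplicit false

namespace C5E17

open FirstOrder

variable {L : FirstOrder.Language.{0, 0}}

/-- equaclosure operators: `g` is a closure operator with `g ⊥ = ⊥`, `g x = g y` implies
`g (x ⊓ y) = g x`, and meets with closed elements preserve joins -/
structure IsEqua {α : Type} [Lattice α] [BoundedOrder α] (g : α → α) : Prop where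
  le : ∀ x, x ≤ g x
  mono : ∀ x y, x ≤ y → g x ≤ g y
  idem : ∀ x, g (g x) = g x
  bot : g ⊥ = ⊥
  inf : ∀ x y, g x = g y → g (x ⊓ y) = g x
  distr : ∀ x y z, g x ⊓ (y ⊔ z) = (g x ⊓ y) ⊔ (g x ⊓ z)

/-- the new condition: let `a` be closed, let `m` be maximal among the `p` with `a ⊓ p ≤ c`,
where `c = a ⊓ m` is the meet of `a` with a closed element; then `b ≤ g (m ⊓ g (a ⊔ b))`
implies `b ≤ g (m ⊓ b)` -/
def Nec {α : Type} [Lattice α] (g : α → α) : Prop :=
  ∀ a b c m : α, g a = a → a ⊓ g c = c → a ⊓ m = c → (∀ p, m ≤ p → a ⊓ p ≤ c → p = m) →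
    b ≤ g (m ⊓ g (a ⊔ b)) → b ≤ g (m ⊓ b)

/-- the identities (atomic formulas valid at all assignments) of a class -/
def IdA (C : Set (Str L)) : Set (Atom L) := {a | QId.mk [] a ∈ ThQ C}

/-- the class of models of a set of identities -/
def ModI (Y : Set (Atom L)) : Set (Str L) := Mod {φ | ∃ a ∈ Y, φ = QId.mk [] a}

theorem mem_modI {Y : Set (Atom L)} {M : Str L} :
    M ∈ ModI Y ↔ ∀ a ∈ Y, ∀ v : ℕ → M.carrier, a.Holds M v := by
  constructor
  · intro h a ha v
    exact h _ ⟨a, ha, rfl⟩ v (by simp)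
  · rintro h φ ⟨a, ha, rfl⟩ v _
    exact h a ha v

theorem mem_idA {C : Set (Str L)} {a : Atom L} :
    a ∈ IdA C ↔ ∀ M ∈ C, ∀ v : ℕ → M.carrier, a.Holds M v := by
  constructor
  · intro h M hM v
    exact h M hM v (by simp)
  · intro h M hM v _
    exact h M hM v

theorem sub_mem_idA {C : Set (Str L)} {a : Atom L} (h : a ∈ IdA C) (σ : ℕ → L.Term ℕ) :
    a.sub σ ∈ IdA C := by
  rw [mem_idA] at h ⊢
  intro M hM v
  rw [Atom.holds_sub]
  exact h M hM _

theorem idA_anti {C D : Set (Str L)} (h : C ⊆ D) : IdA D ⊆ IdA C := by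
  intro a ha
  rw [mem_idA] at ha ⊢
  exact fun M hM => ha M (h hM)

theorem modI_anti {Y Y' : Set (Atom L)} (h : Y ⊆ Y') : ModI Y' ⊆ ModI Y := by
  intro M hM
  rw [mem_modI] at hM ⊢
  exact fun a ha => hM a (h ha)

/-- the natural closure operator -/
def gamS (K C : Set (Str L)) : Set (Str L) := K ∩ ModI (IdA C)

theorem sub_gamS {K C : Set (Str L)} (h : C ⊆ K) : C ⊆ gamS K C := fun M hM =>
  ⟨h hM, mem_modI.2 fun _ ha v => mem_idA.1 ha M hM v⟩

theorem idA_gamS {K C : Set (Str L)} (h : C ⊆ K) : IdA (gamS K C) = IdA C := by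
  apply Set.Subset.antisymm (idA_anti (sub_gamS h))
  intro a ha
  rw [mem_idA]
  rintro M ⟨_, hM⟩ v
  exact mem_modI.1 hM a ha v

theorem consClosed_idA (C : Set (Str L)) : ConsClosed C (IdA C) := by
  intro P a hP ha
  rw [mem_idA]
  intro M hM v
  exact ha M hM v fun b hb => mem_idA.1 (hP b hb) M hM v

/-- consequences in the intersection of a quasivariety and an equational class -/
theorem exists_prem {X : Set (Str L)} (hX : IsQV X) (D : Set (Str L)) (al : List (Atom L))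
    (be : Atom L) (h : QId.mk al be ∈ ThQ (X ∩ ModI (IdA D))) :
    ∃ P : List (Atom L), (∀ b ∈ P, b ∈ IdA D) ∧ QId.mk (al ++ P) be ∈ ThQ X := by
  set Y : Set (Atom L) :=
    {a | ∃ P : List (Atom L), (∀ b ∈ P, b ∈ IdA D) ∧ QId.mk (al ++ P) a ∈ ThQ X} with hY
  have hfin : ∀ P : List (Atom L), (∀ b ∈ P, b ∈ Y) → ∃ P' : List (Atom L),
      (∀ b ∈ P', b ∈ IdA D) ∧ ∀ b ∈ P, QId.mk (al ++ P') b ∈ ThQ X := by
    intro P
    induction P with
    | nil => exact fun _ => ⟨[], by simp, by simp⟩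
    | cons p P ih =>
      intro hP
      obtain ⟨P1, h1, h2⟩ := ih fun b hb => hP b (List.mem_cons_of_mem _ hb)
      obtain ⟨P2, h3, h4⟩ := hP p List.mem_cons_self
      refine ⟨P2 ++ P1, ?_, ?_⟩
      · intro b hb
        rcases List.mem_append.1 hb with hb | hb
        · exact h3 b hb
        · exact h1 b hb
      · intro b hb
        rcases List.mem_cons.1 hb with rfl | hb
        · exact SDN.weak h4 fun c hc => by
            simp only [List.mem_append] at hc ⊢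
            tauto
        · exact SDN.weak (h2 b hb) fun c hc => by
            simp only [List.mem_append] at hc ⊢
            tauto
  have hcl : ConsClosed X Y := by
    intro P a hP ha
    obtain ⟨P', h1, h2⟩ := hfin P hP
    exact ⟨P', h1, fun M hM v hv => ha M hM v fun b hb => h2 b hb M hM v hv⟩
  obtain ⟨M, hM, _, v, hv, hgen⟩ := exists_canonical_gen hX hX Y hcl hcl
  have hMD : M ∈ ModI (IdA D) := by
    rw [mem_modI]
    intro a ha u
    obtain ⟨r, rfl⟩ := exists_terms hgen u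
    rw [← Atom.holds_sub, hv]
    exact ⟨[a.sub r], by simpa using sub_mem_idA ha r, fun N _ w hw => hw _ (by simp)⟩
  have hal : ∀ a ∈ al, a.Holds M v := fun a ha => (hv a).2 ⟨[], by simp, fun N _ w hw =>
    hw a (by simpa using ha)⟩
  exact (hv be).1 (h M ⟨hM, hMD⟩ v hal)

section SubQ

variable {K : Set (Str L)}

theorem isQV_modI (Y : Set (Atom L)) : IsQV (ModI Y) := ⟨_, rfl⟩

/-- the natural closure operator on the lattice of subquasivarieties -/
def gam (hK : IsQV K) (C : SubQ K) : SubQ K :=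
  ⟨gamS K C.1, SDN.isQV_inter hK (isQV_modI _), Set.inter_subset_left⟩

theorem gam_le (hK : IsQV K) (C : SubQ K) : C ≤ gam hK C := SDN.le_def.2 (sub_gamS C.2.2)

theorem gam_mono (hK : IsQV K) {C D : SubQ K} (h : C ≤ D) : gam hK C ≤ gam hK D :=
  SDN.le_def.2 fun _ hM => ⟨hM.1, modI_anti (idA_anti (SDN.le_def.1 h)) hM.2⟩

theorem idA_gam (hK : IsQV K) (C : SubQ K) : IdA (gam hK C).1 = IdA C.1 := idA_gamS C.2.2

theorem gam_eq (hK : IsQV K) {C D : SubQ K} (h : IdA C.1 = IdA D.1) : gam hK C = gam hK D := by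
  apply Subtype.ext
  show gamS K C.1 = gamS K D.1
  unfold gamS
  rw [h]

theorem gam_idem (hK : IsQV K) (C : SubQ K) : gam hK (gam hK C) = gam hK C :=
  gam_eq hK (idA_gam hK C)

theorem le_gam_iff (hK : IsQV K) {B C : SubQ K} : B ≤ gam hK C ↔ IdA C.1 ⊆ IdA B.1 := by
  constructor
  · intro h
    have := idA_anti (SDN.le_def.1 h)
    rwa [idA_gam] at this
  · intro h
    refine SDN.le_def.2 fun M hM => ⟨B.2.2 hM, ?_⟩
    rw [mem_modI]
    exact fun a ha v => mem_idA.1 (h ha) M hM v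

/-- the structures in which all atomic formulas hold belong to every quasivariety -/
theorem gam_least (hK : IsQV K) {C : SubQ K} (hC : ∀ D : SubQ K, C ≤ D) :
    gam hK C = C := by
  have hT : ∀ D : Set (Str L), IsQV D → ModI (Set.univ : Set (Atom L)) ⊆ D := by
    rintro D ⟨Q, rfl⟩ M hM φ _ v _
    exact mem_modI.1 hM _ (Set.mem_univ _) v
  have h1 : C.1 ⊆ ModI (Set.univ : Set (Atom L)) :=
    SDN.le_def.1 (hC ⟨ModI Set.univ, isQV_modI _, hT K hK⟩)
  apply le_antisymm _ (gam_le hK C)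
  refine SDN.le_def.2 fun M hM => hT C.1 C.2.1 ?_
  rw [mem_modI]
  intro a _ v
  refine mem_modI.1 hM.2 a ?_ v
  rw [mem_idA]
  intro N hN w
  exact mem_modI.1 (h1 hN) a (Set.mem_univ _) w

theorem gam_inf (hK : IsQV K) {C D : SubQ K} (h : gam hK C = gam hK D) :
    gam hK (SDN.I C D) = gam hK C := by
  have hid : IdA C.1 = IdA D.1 := by rw [← idA_gam hK C, ← idA_gam hK D, h]
  apply gam_eq
  apply Set.Subset.antisymm _ (idA_anti Set.inter_subset_left)
  intro a ha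
  obtain ⟨M, hM1, hM2, v, hv, _⟩ := exists_canonical_gen C.2.1 D.2.1 (IdA C.1)
    (consClosed_idA C.1) (hid ▸ consClosed_idA D.1)
  exact (hv a).1 (mem_idA.1 ha M ⟨hM1, hM2⟩ v)

theorem idA_J (hK : IsQV K) (C D : SubQ K) : IdA (SDN.J hK C D).1 = IdA C.1 ∩ IdA D.1 := by
  ext a
  have := SDN.th_inter C.1 D.1
  constructor
  · intro h
    have h' : QId.mk [] a ∈ ThQ C.1 ∩ ThQ D.1 := by
      rw [← this]
      exact h
    exact h'
  · intro h
    have h' : QId.mk [] a ∈ ThQ C.1 ∩ ThQ D.1 := h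
    rw [← this] at h'
    exact h'

theorem gam_distr (hK : IsQV K) (D X Y : SubQ K) :
    SDN.I (gam hK D) (SDN.J hK X Y) ≤
      SDN.J hK (SDN.I (gam hK D) X) (SDN.I (gam hK D) Y) := by
  have hsub : ∀ Z : SubQ K, (Z.1 ∩ ModI (IdA D.1)) ⊆ (SDN.I (gam hK D) Z).1 :=
    fun Z M hM => ⟨⟨Z.2.2 hM.1, hM.2⟩, hM.1⟩
  refine SDN.le_def.2 ?_
  rintro M ⟨hMD, hMJ⟩ φ ⟨h1, h2⟩ v hv
  obtain ⟨al, be⟩ := φ
  obtain ⟨P, hP, hP'⟩ := exists_prem X.2.1 D.1 al be (SDN.th_anti (hsub X) h1)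
  obtain ⟨Q, hQ, hQ'⟩ := exists_prem Y.2.1 D.1 al be (SDN.th_anti (hsub Y) h2)
  have hX : QId.mk (al ++ (P ++ Q)) be ∈ ThQ X.1 := SDN.weak hP' fun c hc => by
    simp only [List.mem_append] at hc ⊢
    tauto
  have hY : QId.mk (al ++ (P ++ Q)) be ∈ ThQ Y.1 := SDN.weak hQ' fun c hc => by
    simp only [List.mem_append] at hc ⊢
    tauto
  refine hMJ _ ⟨hX, hY⟩ v fun c hc => ?_
  have hc' : c ∈ al ++ (P ++ Q) := hc
  simp only [List.mem_append] at hc'
  rcases hc' with hc' | hc' | hc'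
  · exact hv c hc'
  · exact mem_modI.1 hMD.2 c (hP c hc') v
  · exact mem_modI.1 hMD.2 c (hQ c hc') v

/-- the new condition in the lattice of subquasivarieties -/
theorem nec_subQ (hK : IsQV K) (A B C M : SubQ K) (hA : gam hK A = A)
    (hC : SDN.I A (gam hK C) = C) (hAM : SDN.I A M = C)
    (hmax : ∀ P : SubQ K, M ≤ P → SDN.I A P ≤ C → P = M)
    (hB : B ≤ gam hK (SDN.I M (gam hK (SDN.J hK A B)))) :
    B ≤ gam hK (SDN.I M B) := by
  -- the subquasivariety `P`
  set Q : Set (QId L) := {φ | φ.concl ∈ IdA C.1 ∧ (∀ b ∈ φ.prem, b ∈ IdA A.1) ∧ φ ∈ ThQ M.1}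
    with hQ
  let P : SubQ K := ⟨K ∩ Mod Q, SDN.isQV_inter hK ⟨Q, rfl⟩, Set.inter_subset_left⟩
  have hMP : M ≤ P := SDN.le_def.2 fun N hN => ⟨M.2.2 hN, fun φ hφ => hφ.2.2 N hN⟩
  have hAP : SDN.I A P ≤ C := by
    rw [← hC]
    refine SDN.le_def.2 ?_
    rintro N ⟨hNA, hNP⟩
    refine ⟨hNA, A.2.2 hNA, ?_⟩
    rw [mem_modI]
    intro t ht v
    have h1 : QId.mk [] t ∈ ThQ (M.1 ∩ ModI (IdA A.1)) := by
      rintro N' ⟨h1, h2⟩
      have h3 : N' ∈ (gam hK A).1 := ⟨M.2.2 h1, h2⟩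
      rw [hA] at h3
      have h4 : N' ∈ (SDN.I A M).1 := ⟨h3, h1⟩
      rw [hAM] at h4
      exact ht N' h4
    obtain ⟨s, hs, hs'⟩ := exists_prem M.2.1 A.1 [] t h1
    rw [List.nil_append] at hs'
    exact hNP.2 (QId.mk s t) ⟨ht, hs, hs'⟩ v fun b hb => mem_idA.1 (hs b hb) N hNA v
  have hPM : P = M := hmax P hMP hAP
  -- the free structure of `B`
  obtain ⟨N, hNB, _, v, hv, hgen⟩ := exists_canonical_gen B.2.1 B.2.1 (IdA B.1)
    (consClosed_idA B.1) (consClosed_idA B.1)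
  have hNM : N ∈ M.1 := by
    rw [← hPM]
    refine ⟨B.2.2 hNB, ?_⟩
    rintro ⟨s, t⟩ ⟨ht, hs, hst⟩ u hu
    obtain ⟨r, rfl⟩ := exists_terms hgen u
    have h1 : ∀ b ∈ s.map (Atom.sub r), b ∈ IdA (SDN.J hK A B).1 := by
      intro b hb
      obtain ⟨c, hc, rfl⟩ := List.mem_map.1 hb
      rw [idA_J]
      refine ⟨sub_mem_idA (hs c hc) r, ?_⟩
      rw [← hv, Atom.holds_sub]
      exact hu c hc
    have h2 : t.sub r ∈ IdA (SDN.I M (gam hK (SDN.J hK A B))).1 := by
      rw [mem_idA]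
      rintro N' ⟨h3, h4⟩ w
      refine holds_mk_sub N' r (hst N' h3) w fun b hb => ?_
      exact mem_modI.1 h4.2 b (h1 b hb) w
    have h3 : t.sub r ∈ IdA B.1 := (le_gam_iff hK).1 hB h2
    show t.Holds N _
    rw [← Atom.holds_sub, hv]
    exact h3
  rw [le_gam_iff]
  intro a ha
  exact (hv a).1 (mem_idA.1 ha N ⟨hNM, hNB⟩ v)

end SubQ

/-- every lattice of quasivarieties has an equaclosure operator with the new condition -/
theorem exists_nec {α : Type} [Lattice α] [BoundedOrder α] (h : IsLQ α) :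
    ∃ g : α → α, IsEqua g ∧ Nec g := by
  obtain ⟨L, K, hK, ⟨e⟩⟩ := h
  have hsup : ∀ a b : α, e (a ⊔ b) = SDN.J hK (e a) (e b) := by
    intro a b
    obtain ⟨h1, h2, h3⟩ := SDN.J_isLUB hK (e a) (e b)
    apply le_antisymm
    · obtain ⟨c, hc⟩ := e.surjective (SDN.J hK (e a) (e b))
      rw [← hc] at h1 h2 ⊢
      rw [e.le_iff_le] at h1 h2 ⊢
      exact sup_le h1 h2
    · exact h3 _ (e.le_iff_le.2 le_sup_left) (e.le_iff_le.2 le_sup_right)
  have hinf : ∀ a b : α, e (a ⊓ b) = SDN.I (e a) (e b) := by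
    intro a b
    apply le_antisymm
    · exact SDN.le_def.2 (Set.subset_inter (e.le_iff_le.2 inf_le_left)
        (e.le_iff_le.2 inf_le_right))
    · have h1 : SDN.I (e a) (e b) ≤ e a := SDN.le_def.2 Set.inter_subset_left
      have h2 : SDN.I (e a) (e b) ≤ e b := SDN.le_def.2 Set.inter_subset_right
      obtain ⟨c, hc⟩ := e.surjective (SDN.I (e a) (e b))
      rw [← hc] at h1 h2 ⊢
      rw [e.le_iff_le] at h1 h2 ⊢
      exact le_inf h1 h2
  set g : α → α := fun x => e.symm (gam hK (e x)) with hg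
  have hge : ∀ x, e (g x) = gam hK (e x) := fun x => e.apply_symm_apply _
  refine ⟨g, ⟨?_, ?_, ?_, ?_, ?_, ?_⟩, ?_⟩
  · intro x
    rw [← e.le_iff_le, hge]
    exact gam_le hK _
  · intro x y hxy
    rw [← e.le_iff_le, hge, hge]
    exact gam_mono hK (e.le_iff_le.2 hxy)
  · intro x
    apply e.injective
    rw [hge, hge, gam_idem]
  · apply e.injective
    rw [hge]
    refine gam_least hK fun D => ?_
    obtain ⟨d, rfl⟩ := e.surjective D
    exact e.le_iff_le.2 bot_le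
  · intro x y hxy
    apply e.injective
    rw [hge, hge, hinf]
    refine gam_inf hK ?_
    rw [← hge, ← hge, hxy]
  · intro x y z
    apply le_antisymm
    · rw [← e.le_iff_le, hsup, hinf, hinf, hinf, hsup, hge]
      exact gam_distr hK _ _ _
    · exact sup_le (inf_le_inf_left _ le_sup_left) (inf_le_inf_left _ le_sup_right)
  · intro a b c m ha hc ham hmax hb
    rw [← e.le_iff_le, hge, hinf]
    refine nec_subQ hK (e a) (e b) (e c) (e m) ?_ ?_ ?_ ?_ ?_
    · rw [← hge, ha]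
    · rw [← hge, ← hinf, hc]
    · rw [← hinf, ham]
    · intro P h1 h2
      obtain ⟨p, rfl⟩ := e.surjective P
      rw [← hinf] at h2
      rw [e.le_iff_le] at h1 h2
      rw [hmax p h1 h2]
    · rw [← hsup, ← hge, ← hinf, ← hge, e.le_iff_le]
      exact hb

end C5E17
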