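import Pool.Agent.Lib.MP_c5e17c_al.NE.Lam

/-!
# MP_c5e17c_al, project NE: a second lattice with nine elements

Upper covers: 0 is covered by 1, 2; 1 by 3, 5; 2 by 4, 5; 3 by 6; 4 by 8; 5, 6 by 7; 7 by 8.
-/

set_option autoImplicit false

namespace C5E17

/-- the set of the nine elements -/
def NineB : Type := Fin 9

namespace NineB

instance : DecidableEq NineB := inferInstanceAs (DecidableEq (Fin 9))
instance : Fintype NineB := inferInstanceAs (Fintype (Fin 9))

/-- the table of joins -/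
def supT : Fin 9 → Fin 9 → Fin 9 :=
  ![![0, 1, 2, 3, 4, 5, 6, 7, 8],
    ![1, 1, 5, 3, 8, 5, 6, 7, 8],
    ![2, 5, 2, 7, 4, 5, 7, 7, 8],
    ![3, 3, 7, 3, 8, 7, 6, 7, 8],
    ![4, 8, 4, 8, 4, 8, 8, 8, 8],
    ![5, 5, 5, 7, 8, 5, 7, 7, 8],
    ![6, 6, 7, 6, 8, 7, 6, 7, 8],
    ![7, 7, 7, 7, 8, 7, 7, 7, 8],
    ![8, 8, 8, 8, 8, 8, 8, 8, 8]]

/-- the table of meets -/
def infT : Fin 9 → Fin 9 → Fin 9 :=
  ![![0, 0, 0, 0, 0, 0, 0, 0, 0],
    ![0, 1, 0, 1, 0, 1, 1, 1, 1],
    ![0, 0, 2, 0, 2, 2, 0, 2, 2],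
    ![0, 1, 0, 3, 0, 1, 3, 3, 3],
    ![0, 0, 2, 0, 4, 2, 0, 2, 4],
    ![0, 1, 2, 1, 2, 5, 1, 5, 5],
    ![0, 1, 0, 3, 0, 1, 6, 6, 6],
    ![0, 1, 2, 3, 2, 5, 6, 7, 7],
    ![0, 1, 2, 3, 4, 5, 6, 7, 8]]

instance : Lattice NineB where
  le x y := infT x y = x
  sup := supT
  inf := infT
  le_refl := by show ∀ x : Fin 9, infT x x = x; decide
  le_trans := by
    show ∀ x y z : Fin 9, infT x y = x → infT y z = y → infT x z = x
    decide
  le_antisymm := by
    show ∀ x y : Fin 9, infT x y = x → infT y x = y → x = y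
    decide
  le_sup_left := by show ∀ x y : Fin 9, infT x (supT x y) = x; decide
  le_sup_right := by show ∀ x y : Fin 9, infT y (supT x y) = y; decide
  sup_le := by
    show ∀ x y z : Fin 9, infT x z = x → infT y z = y → infT (supT x y) z = supT x y
    decide
  inf_le_left := by show ∀ x y : Fin 9, infT (infT x y) x = infT x y; decide
  inf_le_right := by show ∀ x y : Fin 9, infT (infT x y) y = infT x y; decide
  le_inf := by
    show ∀ x y z : Fin 9, infT x y = x → infT x z = x → infT x (infT y z) = x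
    decide

instance : BoundedOrder NineB where
  top := (8 : Fin 9)
  bot := (0 : Fin 9)
  le_top := by show ∀ x : Fin 9, infT x 8 = x; decide
  bot_le := by show ∀ x : Fin 9, infT 0 x = 0; decide

theorem sd (x y z : NineB) (h : x ⊔ y = x ⊔ z) : x ⊔ (y ⊓ z) = x ⊔ y := by
  revert h
  have : ∀ x y z : Fin 9, supT x y = supT x z → supT x (infT y z) = supT x y := by decide
  exact this x y z

/-- an equaclosure operator -/
def g0 : Fin 9 → Fin 9 := ![0, 8, 4, 8, 4, 8, 8, 8, 8]

theorem isEqua_g0 : IsEqua (α := NineB) g0 where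
  le := by show ∀ x : Fin 9, infT x (g0 x) = x; decide
  mono := by show ∀ x y : Fin 9, infT x y = x → infT (g0 x) (g0 y) = g0 x; decide
  idem := by show ∀ x : Fin 9, g0 (g0 x) = g0 x; decide
  bot := by show g0 0 = 0; decide
  inf := by show ∀ x y : Fin 9, g0 x = g0 y → g0 (infT x y) = g0 x; decide
  distr := by
    show ∀ x y z : Fin 9,
      infT (g0 x) (supT y z) = supT (infT (g0 x) y) (infT (g0 x) z)
    decide

theorem necP_g0 : NecP (α := NineB) g0 := by
  have key : ∀ a : Fin 9, g0 a = a → ∀ f : Fin 9, g0 f = f → ∀ m : Fin 9,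
      infT (infT a m) f = infT a m →
      (∀ p : Fin 9, infT m p = m → infT (infT a p) f = infT a p → p = m) →
      ∀ b : Fin 9, infT b (g0 (supT f (infT m (g0 (supT a b))))) = b →
        infT b (g0 (infT m b)) = b := by
    decide
  intro a f m b ha hf ham hmax hb
  exact key a ha f hf m ham hmax b hb

theorem card_nine : Nat.card NineB = 9 := by
  rw [Nat.card_eq_fintype_card]
  rfl

theorem not_lam (g : NineB → NineB) (h : IsEqua g) : ¬ Lam g := by
  -- closed elements are codistributive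
  have hcod : ∀ x : Fin 9, ((∀ y z : Fin 9, infT x (supT y z) = supT (infT x y) (infT x z)) →
      (x = 0 ∨ x = 1 ∨ x = 2 ∨ x = 4 ∨ x = 5 ∨ x = 8)) := by decide
  have hcl : ∀ x : NineB, (g x = (0 : Fin 9) ∨ g x = (1 : Fin 9) ∨ g x = (2 : Fin 9) ∨
      g x = (4 : Fin 9) ∨ g x = (5 : Fin 9) ∨ g x = (8 : Fin 9)) :=
    fun x => hcod (g x) fun y z => h.distr x y z
  have h3 : g (3 : Fin 9) = (8 : Fin 9) := by
    have hle : infT (3 : Fin 9) (g (3 : Fin 9)) = 3 := h.le (3 : Fin 9)
    rcases hcl (3 : Fin 9) with h' | h' | h' | h' | h' | h'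
    · rw [h'] at hle; exact absurd hle (by decide)
    · rw [h'] at hle; exact absurd hle (by decide)
    · rw [h'] at hle; exact absurd hle (by decide)
    · rw [h'] at hle; exact absurd hle (by decide)
    · rw [h'] at hle; exact absurd hle (by decide)
    · exact h'
  have h0 : g (0 : Fin 9) = (0 : Fin 9) := h.bot
  have h4 : g (4 : Fin 9) = (4 : Fin 9) := by
    have hle : infT (4 : Fin 9) (g (4 : Fin 9)) = 4 := h.le (4 : Fin 9)
    rcases hcl (4 : Fin 9) with h' | h' | h' | h' | h' | h'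
    · rw [h'] at hle; exact absurd hle (by decide)
    · rw [h'] at hle; exact absurd hle (by decide)
    · rw [h'] at hle; exact absurd hle (by decide)
    · exact h'
    · rw [h'] at hle; exact absurd hle (by decide)
    · exfalso
      have h5 : g (infT (3 : Fin 9) (4 : Fin 9)) = g (3 : Fin 9) :=
        h.inf (3 : Fin 9) (4 : Fin 9) (h3.trans h'.symm)
      rw [h3] at h5
      have h6 : g (0 : Fin 9) = (8 : Fin 9) := h5
      rw [h0] at h6
      exact absurd h6 (by decide)
  intro hlam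
  have hm : ∀ p : Fin 9, infT 6 p = 6 → infT (infT 4 p) 0 = infT 4 p → p = 6 := by decide
  have key := hlam (4 : Fin 9) (0 : Fin 9) (6 : Fin 9) (5 : Fin 9) (3 : Fin 9) h4 h0 rfl hm
  have key' : infT (infT (supT 0 (infT 6 (supT 5 4))) (supT 5 3)) (supT (infT 6 5) 3)
      = infT (supT 0 (infT 6 (supT 5 4))) (supT 5 3) := key
  exact absurd key' (by decide)

theorem not_isLQ : ¬ IsLQ NineB := by
  intro h
  obtain ⟨g, h1, _, h2⟩ := exists_nec_lam h
  exact not_lam g h1 h2

end NineB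

end C5E17
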